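import Pool.Agent.H418R3.EF.Stmts
set_option autoImplicit false

namespace Pool.Agent.H28R5.EF
open Pool.Agent.H418R3.EF
open scoped Pointwise

abbrev LL := V 2 →ₗ[ℚ] V 2

def R (A : AddSubgroup (V 2)) : Submodule ℚ LL where
  carrier := {φ | ∃ m : ℤ, m ≠ 0 ∧ ∀ v ∈ A, (m:ℚ) • φ v ∈ A}
  zero_mem' := ⟨1, one_ne_zero, fun v hv => by simp [A.zero_mem]⟩
  add_mem' := by
    rintro φ ψ ⟨m, hm, h1⟩ ⟨n, hn, h2⟩
    refine ⟨m*n, mul_ne_zero hm hn, fun v hv => ?_⟩
    have e : ((m*n : ℤ):ℚ) • (φ + ψ) v = n • ((m:ℚ) • φ v) + m • ((n:ℚ) • ψ v) := by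
      ext i
      simp
      ring
    rw [e]
    exact A.add_mem (A.zsmul_mem (h1 v hv) n) (A.zsmul_mem (h2 v hv) m)
  smul_mem' := by
    rintro q φ ⟨m, hm, h1⟩
    refine ⟨m * q.den, mul_ne_zero hm (by exact_mod_cast q.den_ne_zero), fun v hv => ?_⟩
    have hq : (q.den : ℚ) * q = q.num := by
      rw [mul_comm]; exact Rat.mul_den_eq_num q
    have e : ((m * q.den : ℤ):ℚ) • (q • φ) v = q.num • ((m:ℚ) • φ v) := by
      ext i
      simp
      rw [← hq]
      ring
    rw [e]
    exact A.zsmul_mem (h1 v hv) _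

lemma R_mul {A : AddSubgroup (V 2)} {φ ψ : LL} (h1 : φ ∈ R A) (h2 : ψ ∈ R A) :
    φ ∘ₗ ψ ∈ R A := by
  obtain ⟨m, hm, h1⟩ := h1
  obtain ⟨n, hn, h2⟩ := h2
  refine ⟨m*n, mul_ne_zero hm hn, fun v hv => ?_⟩
  have e : ((m*n : ℤ):ℚ) • (φ ∘ₗ ψ) v = (m:ℚ) • φ ((n:ℚ) • ψ v) := by
    rw [map_smul, smul_smul, LinearMap.comp_apply]
    push_cast
    rfl
  rw [e]
  exact h1 _ (h2 v hv)

lemma R_one (A : AddSubgroup (V 2)) : (LinearMap.id : LL) ∈ R A :=
  ⟨1, one_ne_zero, fun v hv => by simpa using hv⟩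

lemma R_aut {A : Sn 2} {h : GQ 2} (hA : h • A = A) : (h : LL) ∈ R A.1 := by
  refine ⟨1, one_ne_zero, fun v hv => ?_⟩
  have : h v ∈ (h • A).1 := by
    rw [mem_smul]
    simpa using hv
  rw [hA] at this
  simpa using this

lemma R_conj {A : Sn 2} (h : GQ 2) {φ : LL} (hφ : φ ∈ R A.1) :
    (h : LL) ∘ₗ φ ∘ₗ (h.symm : LL) ∈ R (h • A).1 := by
  obtain ⟨m, hm, h1⟩ := hφ
  refine ⟨m, hm, fun v hv => ?_⟩
  rw [mem_smul] at hv ⊢
  have h2 := h1 _ hv
  have e : h⁻¹ ((m:ℚ) • ((h : LL) ∘ₗ φ ∘ₗ (h.symm : LL)) v) = (m:ℚ) • φ (h⁻¹ v) := by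
    change h.symm ((m:ℚ) • h (φ (h.symm v))) = _
    rw [map_smul, LinearEquiv.symm_apply_apply]
    rfl
  rw [e]
  exact h2

def E11 : LL where
  toFun v := ![v 0, 0]
  map_add' v w := by ext i; fin_cases i <;> simp
  map_smul' c v := by ext i; fin_cases i <;> simp

def E21 : LL where
  toFun v := ![0, v 0]
  map_add' v w := by ext i; fin_cases i <;> simp
  map_smul' c v := by ext i; fin_cases i <;> simp

lemma PT_of {A : Sn 2} (h1 : E11 ∈ R A.1) (h2 : E21 ∈ R A.1) : A ∈ PT := by
  have h3 : (LinearMap.id : LL) - E11 ∈ R A.1 := (R A.1).sub_mem (R_one _) h1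
  obtain ⟨a, ha, h1⟩ := h1
  obtain ⟨b, hb, h2⟩ := h2
  obtain ⟨c, hc, h3⟩ := h3
  refine ⟨a * b * c, mul_ne_zero (mul_ne_zero ha hb) hc, fun v hv => ⟨?_, ?_, ?_⟩⟩
  · have e : (![((a*b*c : ℤ) : ℚ) * v 0, 0] : V 2) = (b*c) • ((a:ℚ) • E11 v) := by
      ext i; fin_cases i
      · simp [E11]; ring
      · simp [E11]
    rw [e]; exact A.1.zsmul_mem (h1 v hv) _
  · have e : (![0, ((a*b*c : ℤ) : ℚ) * v 1] : V 2) = (a*b) • ((c:ℚ) • ((LinearMap.id : LL) - E11) v) := by
      ext i; fin_cases i
      · simp [E11, Matrix.vecHead]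
      · simp [E11, Matrix.vecHead, Matrix.vecTail]; ring
    rw [e]; exact A.1.zsmul_mem (h3 v hv) _
  · have e : (![0, ((a*b*c : ℤ) : ℚ) * v 0] : V 2) = (a*c) • ((b:ℚ) • E21 v) := by
      ext i; fin_cases i
      · simp [E21]
      · simp [E21]; ring
    rw [e]; exact A.1.zsmul_mem (h2 v hv) _

lemma nilp (N : LL) (hN : N ≠ 0) (h2 : ∀ v, N (N v) = 0) :
    ∃ h : GQ 2, ∀ v, h (N (h.symm v)) = E21 v := by
  obtain ⟨v, hv⟩ : ∃ v, N v ≠ 0 := by
    by_contra h
    push Not at h
    exact hN (LinearMap.ext h)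
  have hli : LinearIndependent ℚ ![v, N v] := by
    rw [LinearIndependent.pair_iff]
    intro s t hst
    have h3 : s • N v = 0 := by
      have := congrArg N hst
      simpa [h2] using this
    have hs : s = 0 := (smul_eq_zero.1 h3).resolve_right hv
    subst hs
    rw [zero_smul, zero_add] at hst
    exact ⟨rfl, (smul_eq_zero.1 hst).resolve_right hv⟩
  let b := basisOfLinearIndependentOfCardEqFinrank hli (by simp)
  have b0 : b 0 = v := by simp [b]
  have b1 : b 1 = N v := by simp [b]
  refine ⟨b.equivFun, ?_⟩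
  intro w
  have hw : b.equivFun.symm w = w 0 • v + w 1 • N v := by
    rw [Module.Basis.equivFun_symm_apply, Fin.sum_univ_two, b0, b1]
  rw [hw, map_add, map_smul, map_smul, h2, smul_zero, add_zero, ← b1]
  ext i
  rw [map_smul]
  fin_cases i
  · simp [E21, Module.Basis.equivFun_apply]
  · simp [E21, Module.Basis.equivFun_apply]

lemma entries (φ : LL) (v : V 2) : φ v = ![φ ![1,0] 0 * v 0 + φ ![0,1] 0 * v 1,
    φ ![1,0] 1 * v 0 + φ ![0,1] 1 * v 1] := by
  have hv : v = v 0 • (![1,0] : V 2) + v 1 • (![0,1] : V 2) := by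
    ext i; fin_cases i <;> simp
  conv_lhs => rw [hv, map_add, map_smul, map_smul]
  ext i; fin_cases i
  · simp; ring
  · simp; ring

lemma E21_apply (v : V 2) : E21 v = ![0, v 0] := rfl
lemma E11_apply (v : V 2) : E11 v = ![v 0, 0] := rfl

lemma E11_of {B : AddSubgroup (V 2)} {z : LL} (hz : z ∈ R B) (hN : E21 ∈ R B)
    (h : z ![0,1] 0 ≠ 0 ∨ z ![1,0] 0 ≠ z ![0,1] 1) : E11 ∈ R B := by
  by_cases hq : z ![0,1] 0 = 0
  · have hps : z ![1,0] 0 - z ![0,1] 1 ≠ 0 := by
      rcases h with h | h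
      · exact absurd hq h
      · exact sub_ne_zero.2 h
    have e : E11 = (z ![1,0] 0 - z ![0,1] 1)⁻¹ • (z - (z ![1,0] 1) • E21
        - (z ![0,1] 1) • (LinearMap.id : LL)) := by
      apply LinearMap.ext
      intro v
      rw [E11_apply]
      simp only [LinearMap.smul_apply, LinearMap.sub_apply, LinearMap.id_apply, E21_apply]
      rw [entries z v, hq]
      ext i; fin_cases i
      · simp [Matrix.vecHead, Matrix.vecTail]
        field_simp
      · simp [Matrix.vecHead, Matrix.vecTail]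
    rw [e]
    exact (R B).smul_mem _ ((R B).sub_mem ((R B).sub_mem hz ((R B).smul_mem _ hN))
      ((R B).smul_mem _ (R_one B)))
  · have e : E11 = (z ![0,1] 0)⁻¹ • (z ∘ₗ E21 - (z ![0,1] 1) • E21) := by
      apply LinearMap.ext
      intro v
      rw [E11_apply]
      simp only [LinearMap.smul_apply, LinearMap.sub_apply, LinearMap.comp_apply, E21_apply]
      rw [entries z ![0, v 0]]
      ext i; fin_cases i
      · simp
        field_simp
      · simp
    rw [e]
    exact (R B).smul_mem _ ((R B).sub_mem (R_mul hz hN) ((R B).smul_mem _ hN))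

lemma comm_zero (k k' : LL) (h1 : k ![0,1] 0 = 0) (h2 : k ![1,0] 0 = k ![0,1] 1)
    (h1' : k' ![0,1] 0 = 0) (h2' : k' ![1,0] 0 = k' ![0,1] 1) (v : V 2) :
    k (k' v) = k' (k v) := by
  rw [entries k (k' v), entries k' (k v), entries k v, entries k' v, h1, h1', h2, h2']
  ext i; fin_cases i
  · simp; ring
  · simp; ring

lemma sq_zero (k k' : LL) {v : V 2} (hv : v ≠ 0) (h : k (k' v) - k' (k v) = 0) (w : V 2) :
    (k ∘ₗ k' - k' ∘ₗ k) ((k ∘ₗ k' - k' ∘ₗ k) w) = 0 := by
  set c : LL := k ∘ₗ k' - k' ∘ₗ k with hc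
  have htr : c ![0,1] 1 = - c ![1,0] 0 := by
    simp only [hc, LinearMap.sub_apply, LinearMap.comp_apply]
    rw [entries k (k' ![0,1]), entries k' (k ![0,1]), entries k (k' ![1,0]), entries k' (k ![1,0])]
    simp
    ring
  have hcv : c v = 0 := h
  rw [entries c v] at hcv
  have e0 := congrFun hcv 0
  have e1 := congrFun hcv 1
  simp at e0 e1
  have hdet : c ![1,0] 0 * c ![0,1] 1 - c ![0,1] 0 * c ![1,0] 1 = 0 := by
    by_contra hne
    apply hv
    have a0 : (c ![1,0] 0 * c ![0,1] 1 - c ![0,1] 0 * c ![1,0] 1) * v 0 = 0 := by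
      linear_combination (c ![0,1] 1) * e0 - (c ![0,1] 0) * e1
    have a1 : (c ![1,0] 0 * c ![0,1] 1 - c ![0,1] 0 * c ![1,0] 1) * v 1 = 0 := by
      linear_combination (c ![1,0] 0) * e1 - (c ![1,0] 1) * e0
    ext i; fin_cases i
    · exact (mul_eq_zero.1 a0).resolve_left hne
    · exact (mul_eq_zero.1 a1).resolve_left hne
  rw [entries c (c w), entries c w]
  rw [htr] at hdet ⊢
  ext i; fin_cases i
  · simp
    linear_combination (-(w 0)) * hdet
  · simp
    linear_combination (-(w 1)) * hdet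

lemma full {A : AddSubgroup (V 2)} {k k' : LL} (hk : k ∈ R A) (hk' : k' ∈ R A)
    (hinj : ∀ v, k (k' v) - k' (k v) = 0 → v = 0) (φ : LL) : φ ∈ R A := by
  set c : LL := k ∘ₗ k' - k' ∘ₗ k with hc
  have hci : Function.Injective c := by
    rw [injective_iff_map_eq_zero]
    intro v hv
    exact hinj v hv
  have hcs : Function.Surjective c := LinearMap.injective_iff_surjective.1 hci
  have hne : (![1,0] : V 2) ≠ 0 := by
    intro h
    have := congrFun h 0
    simp at this
  have scal : ∀ a b : ℚ, (∀ w, a • w + b • k w = 0) → b = 0 ∧ a = 0 := by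
    intro a b h
    have hb : b = 0 := by
      by_contra hb
      apply hne
      apply hinj
      have hk1 : ∀ w, k w = (-(a / b)) • w := by
        intro w
        have h1 := h w
        have h2 : b • k w = -(a • w) := by
          rw [add_comm] at h1; exact eq_neg_of_add_eq_zero_left h1
        have h3 : k w = b⁻¹ • (b • k w) := by rw [smul_smul, inv_mul_cancel₀ hb, one_smul]
        rw [h3, h2, smul_neg, smul_smul, neg_smul, div_eq_inv_mul]
      rw [hk1, hk1, map_smul, sub_self]
    refine ⟨hb, ?_⟩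
    have h1 := h ![1,0]
    rw [hb, zero_smul, add_zero] at h1
    exact (smul_eq_zero.1 h1).resolve_right hne
  have hli : LinearIndependent ℚ ![(LinearMap.id : LL), k, k', k ∘ₗ k'] := by
    rw [Fintype.linearIndependent_iff]
    intro g hg
    rw [Fin.sum_univ_four] at hg
    have H : ∀ v, g 0 • v + g 1 • k v + g 2 • k' v + g 3 • k (k' v) = 0 := by
      intro v
      have := LinearMap.congr_fun hg v
      simpa using this
    have H2 : ∀ w, g 2 • w + g 3 • k w = 0 := by
      intro w
      obtain ⟨v, rfl⟩ := hcs w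
      have h1 := congrArg k (H v)
      have h2 := H (k v)
      simp only [map_add, map_smul, map_zero] at h1
      have e : g 2 • c v + g 3 • k (c v) =
          (g 0 • k v + g 1 • k (k v) + g 2 • k (k' v) + g 3 • k (k (k' v))) -
          (g 0 • k v + g 1 • k (k v) + g 2 • k' (k v) + g 3 • k (k' (k v))) := by
        simp only [hc, LinearMap.sub_apply, LinearMap.comp_apply, map_sub, smul_sub]
        abel
      rw [e, h1, h2, sub_zero]
    obtain ⟨h3, h2⟩ := scal _ _ H2
    have H3 : ∀ w, g 0 • w + g 1 • k w = 0 := by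
      intro w
      have := H w
      rw [h2, h3, zero_smul, zero_smul, add_zero, add_zero] at this
      exact this
    obtain ⟨h1, h0⟩ := scal _ _ H3
    intro i; fin_cases i
    · exact h0
    · exact h1
    · exact h2
    · exact h3
  have hspan := hli.span_eq_top_of_card_eq_finrank (by
    rw [Module.finrank_linearMap]; simp)
  have hle : Submodule.span ℚ (Set.range ![(LinearMap.id : LL), k, k', k ∘ₗ k']) ≤ R A := by
    rw [Submodule.span_le]
    rintro _ ⟨i, rfl⟩
    fin_cases i
    · exact R_one A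
    · exact hk
    · exact hk'
    · exact R_mul hk hk'
  rw [hspan] at hle
  exact hle trivial

theorem taskCov : TaskCov := by
  intro A
  by_cases hPS : A ∈ PS 2
  · exact Or.inl hPS
  right
  have hPS' : ∃ k : GQ 2, k • A = A ∧ ¬ IsScal k := by
    by_contra hcon
    apply hPS
    intro g hg
    by_contra h2
    exact hcon ⟨g, hg, h2⟩
  obtain ⟨k, hk, hks⟩ := hPS'
  by_cases hcomm : ∀ h : GQ 2, h • A = A → h * k = k * h
  · by_cases hS : Semi k
    · exact Or.inl ⟨k, hS, hcomm, k, hk, hks⟩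
    · right; left
      unfold Semi at hS
      rw [not_not] at hS
      obtain ⟨c, hc⟩ := hS
      have hN : (k : LL) - c • (LinearMap.id : LL) ≠ 0 := by
        intro h0
        apply hks
        refine ⟨c, fun v => ?_⟩
        have := LinearMap.congr_fun h0 v
        exact sub_eq_zero.1 (by simpa using this)
      obtain ⟨h, hh⟩ := nilp ((k : LL) - c • (LinearMap.id : LL)) hN (by
        intro v
        have h1 := hc v
        have e : ((k : LL) - c • (LinearMap.id : LL)) (((k : LL) - c • (LinearMap.id : LL)) v) =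
            k (k v) - (2 * c) • k v + (c ^ 2) • v := by
          simp only [LinearMap.sub_apply, LinearMap.smul_apply, LinearMap.id_apply,
            LinearEquiv.coe_coe, map_sub, map_smul]
          module
        rw [e, h1])
      refine ⟨h, ?_, h * k * h⁻¹, ?_, ?_⟩
      · intro h' hh'
        have h1 : (h⁻¹ * h' * h) • A = A := by
          rw [mul_smul, mul_smul, hh', inv_smul_smul]
        have h2 := hcomm _ h1
        have h3 : ∀ w, h' (E21 w) = E21 (h' w) := by
          intro w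
          rw [← hh w, ← hh (h' w)]
          have h4 := LinearEquiv.congr_fun h2 (h.symm w)
          have h5 : h.symm (h' (h (k (h.symm w)))) = k (h.symm (h' (h (h.symm w)))) := h4
          rw [LinearEquiv.apply_symm_apply] at h5
          have h6 : h' (h (k (h.symm w))) = h (k (h.symm (h' w))) := by
            rw [← h5, LinearEquiv.apply_symm_apply]
          simp only [LinearMap.sub_apply, LinearMap.smul_apply, LinearMap.id_apply,
            LinearEquiv.coe_coe, map_sub, map_smul, LinearEquiv.apply_symm_apply]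
          rw [h6]
        have h7 := h3 ![1,0]
        rw [E21_apply, E21_apply] at h7
        have h8 : h' ![0,1] = ![0, h' ![1,0] 0] := by simpa using h7
        refine ⟨h' ![1,0] 0, h' ![1,0] 1, fun v => ?_⟩
        have h9 := entries (h' : LL) v
        simp only [LinearEquiv.coe_coe] at h9
        rw [h9, h8]
        simp
      · rw [mul_smul, mul_smul, inv_smul_smul, hk]
      · rintro ⟨d, hd⟩
        apply hks
        refine ⟨d, fun v => ?_⟩
        have h1 := hd (h v)
        have h2 : h (k (h.symm (h v))) = d • h v := h1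
        rw [LinearEquiv.symm_apply_apply, ← map_smul] at h2
        exact h.injective h2
  · right; right
    push Not at hcomm
    obtain ⟨k', hk', hne⟩ := hcomm
    have mk := R_aut hk
    have mk' := R_aut hk'
    by_cases hinj : ∀ v, (k : LL) ((k' : LL) v) - (k' : LL) ((k : LL) v) = 0 → v = 0
    · refine ⟨1, ?_⟩
      rw [one_smul]
      exact PT_of (full mk mk' hinj _) (full mk mk' hinj _)
    · push Not at hinj
      obtain ⟨v, hv, hv0⟩ := hinj
      have hc0 : (k : LL) ∘ₗ (k' : LL) - (k' : LL) ∘ₗ (k : LL) ≠ 0 := by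
        intro h0
        apply hne
        apply LinearEquiv.ext
        intro w
        have := LinearMap.congr_fun h0 w
        exact (sub_eq_zero.1 this).symm
      obtain ⟨h, hh⟩ := nilp _ hc0 (sq_zero (k : LL) (k' : LL) hv0 hv)
      refine ⟨h, ?_⟩
      set z : LL := (h : LL) ∘ₗ (k : LL) ∘ₗ (h.symm : LL) with hz
      set z' : LL := (h : LL) ∘ₗ (k' : LL) ∘ₗ (h.symm : LL) with hz'
      have mz : z ∈ R (h • A).1 := R_conj h mk
      have mz' : z' ∈ R (h • A).1 := R_conj h mk'
      have mE : E21 ∈ R (h • A).1 := by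
        have : E21 = (h : LL) ∘ₗ ((k : LL) ∘ₗ (k' : LL) - (k' : LL) ∘ₗ (k : LL)) ∘ₗ (h.symm : LL) := by
          apply LinearMap.ext
          intro w
          exact (hh w).symm
        rw [this]
        exact R_conj h ((R A.1).sub_mem (R_mul mk mk') (R_mul mk' mk))
      have hzz : ∀ w, z (z' w) - z' (z w) = E21 w := by
        intro w
        rw [← hh w]
        simp only [hz, hz', LinearMap.comp_apply, LinearEquiv.coe_coe, LinearMap.sub_apply,
          LinearEquiv.symm_apply_apply, map_sub]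
      by_cases c1 : z ![0,1] 0 ≠ 0 ∨ z ![1,0] 0 ≠ z ![0,1] 1
      · exact PT_of (E11_of mz mE c1) mE
      by_cases c2 : z' ![0,1] 0 ≠ 0 ∨ z' ![1,0] 0 ≠ z' ![0,1] 1
      · exact PT_of (E11_of mz' mE c2) mE
      exfalso
      push Not at c1 c2
      have h1 := hzz ![1,0]
      rw [comm_zero z z' c1.1 c1.2 c2.1 c2.2, sub_self, E21_apply] at h1
      have := congrFun h1 1
      simp at this

end Pool.Agent.H28R5.EF
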