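import Pool.Agent.H418R3.EF.Stmts
set_option autoImplicit false

namespace Pool.Agent.H28R5.EFT2
open Pool.Agent.H418R3.EF
open scoped Pointwise

/-- similarity of subgroups of `ℚ` -/
def Sim (S T : AddSubgroup ℚ) : Prop := ∃ q : ℚˣ, q • S = T

lemma Sim.refl (S : AddSubgroup ℚ) : Sim S S := ⟨1, one_smul _ _⟩

lemma Sim.symm {S T : AddSubgroup ℚ} (h : Sim S T) : Sim T S := by
  obtain ⟨q, rfl⟩ := h
  exact ⟨q⁻¹, inv_smul_smul _ _⟩

lemma Sim.trans {S T U : AddSubgroup ℚ} (h : Sim S T) (h' : Sim T U) : Sim S U := by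
  obtain ⟨q, rfl⟩ := h
  obtain ⟨r, rfl⟩ := h'
  exact ⟨r * q, mul_smul _ _ _⟩

lemma mem_unit_smul (q : ℚˣ) (S : AddSubgroup ℚ) (x : ℚ) : x ∈ q • S ↔ (q⁻¹ : ℚˣ) * x ∈ S := by
  have hq : (q : ℚ) ≠ 0 := q.ne_zero
  rw [Units.smul_def, AddSubgroup.mem_smul_pointwise_iff_exists]
  constructor
  · rintro ⟨s, hs, rfl⟩
    have e : ((q⁻¹ : ℚˣ) : ℚ) * ((q : ℚ) • s) = s := by
      rw [smul_eq_mul, ← mul_assoc, Units.inv_mul, one_mul]
    rwa [e]
  · intro h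
    refine ⟨_, h, ?_⟩
    rw [smul_eq_mul, ← mul_assoc, Units.mul_inv, one_mul]

/-- `A_v` -/
def Av (A : Sn 2) (v : V 2) : AddSubgroup ℚ where
  carrier := {q | q • v ∈ A.1}
  zero_mem' := by
    change (0:ℚ) • v ∈ A.1
    rw [zero_smul]; exact A.1.zero_mem
  add_mem' := by
    intro a b ha hb
    change (a + b) • v ∈ A.1
    rw [add_smul]; exact A.1.add_mem ha hb
  neg_mem' := by
    intro a ha
    change (-a) • v ∈ A.1
    rw [neg_smul]; exact A.1.neg_mem ha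

lemma mem_Av {A : Sn 2} {v : V 2} {q : ℚ} : q ∈ Av A v ↔ q • v ∈ A.1 := Iff.rfl
lemma mem_B1 {A : Sn 2} {q : ℚ} : q ∈ B1 A ↔ ![q, 0] ∈ A.1 := Iff.rfl
lemma mem_B2 {A : Sn 2} {q : ℚ} : q ∈ B2 A ↔ ![0, q] ∈ A.1 := Iff.rfl

lemma Av_map (A : Sn 2) (h : GQ 2) (v : V 2) : Av (h • A) (h v) = Av A v := by
  ext q
  rw [mem_Av, mem_Av, mem_smul]
  have : h⁻¹ (q • h v) = q • v := by
    change h.symm (q • h v) = q • v
    rw [map_smul, LinearEquiv.symm_apply_apply]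
  rw [this]

/-- commensurable up to integers -/
lemma sim_of (hT : TaskT1) {B C : AddSubgroup ℚ} {m M : ℤ} (hm : m ≠ 0) (hM : M ≠ 0)
    (h1 : ∀ x ∈ B, (m:ℚ) * x ∈ C) (h2 : ∀ x ∈ C, (M:ℚ) * x ∈ B) : Sim C B := by
  have hmq : (m:ℚ) ≠ 0 := by exact_mod_cast hm
  obtain ⟨q, hq⟩ := hT ((Units.mk0 (m:ℚ) hmq) • B) C (m * M) (mul_ne_zero hm hM) (by
    intro x hx
    rw [mem_unit_smul] at hx
    have h3 := h1 _ hx
    have e : (m:ℚ) * (((Units.mk0 (m:ℚ) hmq)⁻¹ : ℚˣ) * x) = x := by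
      rw [← mul_assoc]
      simp [hmq]
    rwa [e] at h3) (by
    intro x hx
    rw [mem_unit_smul]
    have h3 := h2 x hx
    have e : (((Units.mk0 (m:ℚ) hmq)⁻¹ : ℚˣ) : ℚ) * (((m * M : ℤ) : ℚ) * x) = (M:ℚ) * x := by
      push_cast
      simp only [Units.val_inv_eq_inv_val, Units.val_mk0]
      field_simp
    rw [e]
    exact h3)
  exact (Sim.trans ⟨q, hq⟩ (Sim.symm ⟨Units.mk0 (m:ℚ) hmq, rfl⟩))

lemma Av_one (hT : TaskT1) {A : Sn 2} (hA : A ∈ PT) {v : V 2} (hv : v 0 ≠ 0) :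
    Sim (B1 A) (Av A v) := by
  obtain ⟨m, hm, hP⟩ := hA
  have hmq : (m:ℚ) ≠ 0 := by exact_mod_cast hm
  have hd : (((v 1 / v 0).den : ℤ)) ≠ 0 := by exact_mod_cast (v 1 / v 0).den_ne_zero
  have hdq : (((v 1 / v 0).den : ℚ)) ≠ 0 := by exact_mod_cast (v 1 / v 0).den_ne_zero
  -- C = v0⁻¹ B1
  have s1 : Sim (B1 A) ((Units.mk0 (v 0) hv)⁻¹ • B1 A) := ⟨_, rfl⟩
  refine s1.trans ?_
  refine sim_of hT (m := m) (M := m * (v 1 / v 0).den) hm (mul_ne_zero hm hd) ?_ ?_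
  · intro x hx
    rw [mem_Av] at hx
    rw [mem_unit_smul, inv_inv, mem_B1]
    have h1 := (hP _ hx).1
    have e : (((Units.mk0 (v 0) hv : ℚˣ) : ℚ) * ((m:ℚ) * x)) = (m:ℚ) * (x • v) 0 := by
      simp only [Units.val_mk0, Pi.smul_apply, smul_eq_mul]
      ring
    rw [e]
    exact h1
  · intro x hx
    rw [mem_unit_smul, inv_inv, mem_B1] at hx
    rw [mem_Av]
    have h1 := (hP _ hx).2.2
    have hnum : (v 1 / v 0) * ((v 1 / v 0).den : ℚ) = (v 1 / v 0).num := Rat.mul_den_eq_num _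
    have e : (((m * (v 1 / v 0).den : ℤ) : ℚ) * x) • v =
        (m * (v 1 / v 0).den : ℤ) • (![((Units.mk0 (v 0) hv : ℚˣ) : ℚ) * x, 0] : V 2) +
        ((v 1 / v 0).num) • (![0, (m:ℚ) * (![((Units.mk0 (v 0) hv : ℚˣ) : ℚ) * x, 0] : V 2) 0] : V 2) := by
      have h3 : ((v 1 / v 0).den : ℚ) * v 1 = (v 1 / v 0).num * v 0 := by
        rw [← hnum]
        field_simp
      ext i
      fin_cases i
      · simp
        ring
      · simp
        linear_combination (m:ℚ) * x * h3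
    rw [e]
    exact A.1.add_mem (A.1.zsmul_mem hx _) (A.1.zsmul_mem h1 _)

lemma Av_two {A : Sn 2} {v : V 2} (hv0 : v 0 = 0) (hv : v 1 ≠ 0) :
    Sim (B2 A) (Av A v) := by
  refine ⟨(Units.mk0 (v 1) hv)⁻¹, ?_⟩
  ext x
  rw [mem_unit_smul, inv_inv, mem_B2, mem_Av]
  have e : (![0, ((Units.mk0 (v 1) hv : ℚˣ) : ℚ) * x] : V 2) = x • v := by
    ext i
    fin_cases i
    · simp [hv0]
    · simp [mul_comm]
  rw [e]

lemma ne_of {v : V 2} (h : v ≠ 0) (h0 : v 0 = 0) : v 1 ≠ 0 := by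
  intro h1
  apply h
  ext i; fin_cases i
  · exact h0
  · exact h1

lemma e2_ne : (![0,1] : V 2) ≠ 0 := by
  intro h
  have := congrFun h 1
  simp at this

theorem taskT2 : TaskT2 := by
  intro hT A h hA hA'
  have key1 : ∀ v : V 2, v 0 ≠ 0 → (h v) 0 ≠ 0 → Sim (B1 A) (B1 (h • A)) := by
    intro v h1 h2
    have s1 := Av_one hT hA h1
    have s2 := Av_one hT hA' h2
    rw [Av_map] at s2
    exact s1.trans s2.symm
  by_cases hc : (h ![0,1]) 0 = 0
  · have hne : h ![0,1] ≠ 0 := by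
      intro h0
      exact e2_ne (h.map_eq_zero_iff.1 h0)
    have s1 : Sim (B2 A) (Av A ![0,1]) := Av_two (by simp) (by simp)
    have s2 : Sim (B2 (h • A)) (Av (h • A) (h ![0,1])) := Av_two hc (ne_of hne hc)
    rw [Av_map] at s2
    have h1 : (h ![1,0]) 0 ≠ 0 := by
      intro h0
      -- both images lie in the line `v 0 = 0`
      have h2 : h ((h ![0,1] 1) • ![1,0] - (h ![1,0] 1) • ![0,1]) = 0 := by
        rw [map_sub, map_smul, map_smul]
        ext i; fin_cases i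
        · simp [h0, hc]
        · simp [mul_comm]
      have h3 := h.map_eq_zero_iff.1 h2
      have h4 := congrFun h3 0
      simp at h4
      exact ne_of hne hc h4
    obtain ⟨q1, hq1⟩ := key1 ![1,0] (by simp) h1
    obtain ⟨q2, hq2⟩ := s1.trans s2.symm
    exact ⟨q1, q2, hq1, hq2⟩
  · have s1 : Sim (B2 A) (Av A ![0,1]) := Av_two (by simp) (by simp)
    have s2 : Sim (B1 (h • A)) (Av (h • A) (h ![0,1])) := Av_one hT hA' hc
    rw [Av_map] at s2
    -- B2 A ~ B1 A'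
    have t1 : Sim (B2 A) (B1 (h • A)) := s1.trans s2.symm
    -- B2 A' ~ B1 A
    have hw : (h.symm ![0,1]) 0 ≠ 0 := by
      intro h0
      have e : h.symm ![0,1] = (h.symm ![0,1] 1) • ![0,1] := by
        ext i; fin_cases i
        · simp [h0]
        · simp
      have e2 := congrArg h e
      rw [LinearEquiv.apply_symm_apply, map_smul] at e2
      have e3 := congrFun e2 0
      simp at e3
      rcases e3 with e3 | e3
      · have : h.symm ![0,1] = 0 := by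
          rw [e, e3, zero_smul]
        exact e2_ne (h.symm.map_eq_zero_iff.1 this)
      · exact hc e3
    have s3 : Sim (B1 A) (Av A (h.symm ![0,1])) := Av_one hT hA hw
    have s4 : Sim (B2 (h • A)) (Av (h • A) ![0,1]) := Av_two (by simp) (by simp)
    have e4 : Av (h • A) ![0,1] = Av A (h.symm ![0,1]) := by
      rw [← Av_map A h, LinearEquiv.apply_symm_apply]
    rw [e4] at s4
    have t2 : Sim (B1 A) (B2 (h • A)) := s3.trans s4.symm
    -- B1 A ~ B1 A'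
    have t3 : Sim (B1 A) (B1 (h • A)) := by
      by_cases h1 : (h ![1,0]) 0 = 0
      · refine key1 (![1,0] + ![0,1]) (by simp) ?_
        rw [map_add, Pi.add_apply, h1, zero_add]
        exact hc
      · exact key1 ![1,0] (by simp) h1
    obtain ⟨q1, hq1⟩ := t3
    obtain ⟨q2, hq2⟩ := (t1.trans (Sim.symm ⟨q1, hq1⟩)).trans t2
    exact ⟨q1, q2, hq1, hq2⟩

end Pool.Agent.H28R5.EFT2
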